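import Pool.Agent.Q224.CJ.Fix
import Pool.Agent.Q224.CJ.Sim

/-!
# Project CJ: extension of ideals to a larger field of constants is injective
-/

set_option autoImplicit false

namespace Pool.Agent.Q129.CJ

open Polynomial
open Pool.Agent.Q7.CJ

section ret

variable {A B : Type} [CommRing A] [CommRing B]

/-- apply an additive map to the coefficients -/
noncomputable def Co (π : B →+ A) (f : B[X]) : A[X] :=
  ∑ i ∈ Finset.range (f.natDegree + 1), monomial i (π (f.coeff i))

theorem coeff_Co (π : B →+ A) (f : B[X]) (n : ℕ) : (Co π f).coeff n = π (f.coeff n) := by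
  unfold Co
  rw [finsetSum_coeff]
  simp_rw [coeff_monomial]
  rw [Finset.sum_ite_eq']
  split_ifs with h
  · rfl
  · rw [Finset.mem_range, not_lt] at h
    rw [coeff_eq_zero_of_natDegree_lt (by omega), map_zero]

/-- the additive map of the polynomial rings -/
noncomputable def CoH (π : B →+ A) : B[X] →+ A[X] where
  toFun := Co π
  map_zero' := by
    ext n
    rw [coeff_Co, coeff_zero, coeff_zero, map_zero]
  map_add' := by
    intro f g
    ext n
    rw [coeff_Co, coeff_add, coeff_add, coeff_Co, coeff_Co, map_add]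

theorem coeff_CoH (π : B →+ A) (f : B[X]) (n : ℕ) : (CoH π f).coeff n = π (f.coeff n) := coeff_Co π f n

theorem CoH_mul (ι : A →+* B) (π : B →+ A) (h : ∀ a b, π (ι a * b) = a * π b) (f : A[X]) (g : B[X]) :
    CoH π (f.map ι * g) = f * CoH π g := by
  ext n
  rw [coeff_CoH, coeff_mul, coeff_mul, map_sum]
  apply Finset.sum_congr rfl
  intro x _
  rw [coeff_map, h, coeff_CoH]

theorem CoH_one (π : B →+ A) (h : π 1 = 1) : CoH π 1 = 1 := by
  ext n
  rw [coeff_CoH, coeff_one, coeff_one]
  split_ifs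
  · exact h
  · exact map_zero _

end ret

theorem exists_ret {L M : Type} [Field L] [Field M] (φ : L →+* M) :
    ∃ π : M →+ L, (∀ a b, π (φ a * b) = a * π b) ∧ π 1 = 1 := by
  let _ : Algebra L M := φ.toAlgebra
  obtain ⟨g, hg⟩ := (Algebra.linearMap L M).exists_leftInverse_of_injective (by
    rw [LinearMap.ker_eq_bot]
    exact φ.injective)
  refine ⟨g.toAddMonoidHom, fun a b => ?_, ?_⟩
  · change g (φ a * b) = a * g b
    have h1 : φ a * b = a • b := by
      rw [Algebra.smul_def]
      rfl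
    rw [h1, map_smul, smul_eq_mul]
  · change g 1 = 1
    have h1 := LinearMap.congr_fun hg 1
    rw [LinearMap.comp_apply, Algebra.linearMap_apply, map_one, LinearMap.id_apply] at h1
    exact h1

set_option linter.unusedSectionVars false

variable {p : ℕ} [Fact p.Prime] [Fact (p ≠ 2)]

theorem mem_of_map {L M : Type} [Field L] [Field M] (φ : L →+* M) (D : L) (D' : M) (h : φ D = D')
    (I : Ideal (BR p D)) (b : BR p D) (hb : bc p φ D D' h b ∈ I.map (bc p φ D D' h)) : b ∈ I := by
  obtain ⟨π, hπ, hπ1⟩ := exists_ret φ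
  have hP1 : ∀ a b, CoH π (mapRingHom φ a * b) = a * CoH π b := CoH_mul φ π hπ
  have hP : ∀ (f : L[X][X]) (g : M[X][X]), CoH (CoH π) (f.map (mapRingHom φ) * g) = f * CoH (CoH π) g :=
    CoH_mul (mapRingHom φ) (CoH π) hP1
  have hff := Pool.Agent.Q224.CJ.ff_map (p := p) φ D D' h
  have h0 : ∀ g : M[X][X], AdjoinRoot.mk (ff p D') g = 0 → AdjoinRoot.mk (ff p D) (CoH (CoH π) g) = 0 := by
    intro g hg
    rw [AdjoinRoot.mk_eq_zero] at hg
    obtain ⟨k, hk⟩ := hg
    rw [hk, ← hff, hP, AdjoinRoot.mk_eq_zero]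
    exact dvd_mul_right _ _
  have key : ∀ z ∈ I.map (bc p φ D D' h), ∀ (w : BR p D') (g : M[X][X]), AdjoinRoot.mk (ff p D') g = w * z →
      AdjoinRoot.mk (ff p D) (CoH (CoH π) g) ∈ I := by
    intro z hz
    unfold Ideal.map at hz
    induction hz using Submodule.span_induction with
    | mem x hx =>
      obtain ⟨i, hi, rfl⟩ := hx
      intro w g hg
      obtain ⟨f, rfl⟩ := AdjoinRoot.mk_surjective i
      obtain ⟨g', rfl⟩ := AdjoinRoot.mk_surjective w
      rw [Pool.Agent.Q224.CJ.bc_mk, ← map_mul] at hg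
      have h1 : AdjoinRoot.mk (ff p D') (g - f.map (mapRingHom φ) * g') = 0 := by
        rw [map_sub, hg, mul_comm, sub_self]
      have h2 := h0 _ h1
      rw [map_sub, hP, map_sub, sub_eq_zero, map_mul] at h2
      rw [h2]
      exact I.mul_mem_right _ hi
    | zero =>
      intro w g hg
      rw [mul_zero] at hg
      rw [h0 g hg]
      exact I.zero_mem
    | add x y _ _ hx hy =>
      intro w g hg
      obtain ⟨g₁, hg₁⟩ := AdjoinRoot.mk_surjective (w * x)
      have h1 := hx w g₁ hg₁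
      have h2 := hy w (g - g₁) (by rw [map_sub, hg, hg₁]; ring)
      have h3 := I.add_mem h1 h2
      rw [← map_add, ← map_add, add_sub_cancel] at h3
      exact h3
    | smul a x _ hx =>
      intro w g hg
      apply hx (w * a) g
      rw [hg, smul_eq_mul, mul_assoc]
  obtain ⟨g₀, rfl⟩ := AdjoinRoot.mk_surjective b
  have h1 := key _ hb 1 (g₀.map (mapRingHom φ)) (by rw [Pool.Agent.Q224.CJ.bc_mk, one_mul])
  have h2 : CoH (CoH π) (g₀.map (mapRingHom φ)) = g₀ := by
    have h3 := hP g₀ 1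
    rw [mul_one, CoH_one (CoH π) (CoH_one π hπ1), mul_one] at h3
    exact h3
  rw [h2] at h1
  exact h1

/-- the extension of ideals is injective -/
theorem map_inj {L M : Type} [Field L] [Field M] (φ : L →+* M) (D : L) (D' : M) (h : φ D = D')
    (I I' : Ideal (BR p D)) (hI : I.map (bc p φ D D' h) = I'.map (bc p φ D D' h)) : I = I' := by
  apply le_antisymm
  · intro b hb
    apply mem_of_map φ D D' h
    rw [← hI]
    exact Ideal.mem_map_of_mem _ hb
  · intro b hb
    apply mem_of_map φ D D' h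
    rw [hI]
    exact Ideal.mem_map_of_mem _ hb

theorem bc_comp {L M N : Type} [Field L] [Field M] [Field N] (φ : L →+* M) (ψ : M →+* N) (D : L) (D' : M) (D'' : N)
    (h : φ D = D') (h' : ψ D' = D'') (h'' : (ψ.comp φ) D = D'') :
    (bc p ψ D' D'' h').comp (bc p φ D D' h) = bc p (ψ.comp φ) D D'' h'' := by
  apply Pool.Agent.Q224.CJ.hom_ext
  · rw [RingHom.comp_apply, bc_xx, bc_xx, bc_xx]
  · intro a
    rw [RingHom.comp_apply, bc_of, bc_of, bc_of, Polynomial.map_map]

theorem bc_tri {L M N : Type} [Field L] [Field M] [Field N] (φ : L →+* M) (ψ : M →+* N) (χ : L →+* N) (D : L) (D' : M)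
    (D'' : N) (h : φ D = D') (h' : ψ D' = D'') (h'' : χ D = D'') (hx : ∀ x, ψ (φ x) = χ x) :
    (bc p ψ D' D'' h').comp (bc p φ D D' h) = bc p χ D D'' h'' := by
  have e : ψ.comp φ = χ := RingHom.ext hx
  subst e
  exact bc_comp φ ψ D D' D'' h h' h''

theorem bc_square {L M M' N : Type} [Field L] [Field M] [Field M'] [Field N] (φ : L →+* M) (ψ : M →+* N)
    (φ' : L →+* M') (ψ' : M' →+* N) (D : L) (D' : M) (E' : M') (D'' : N) (h : φ D = D') (h' : ψ D' = D'')
    (k : φ' D = E') (k' : ψ' E' = D'') (hx : ∀ x, ψ (φ x) = ψ' (φ' x)) :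
    (bc p ψ D' D'' h').comp (bc p φ D D' h) = (bc p ψ' E' D'' k').comp (bc p φ' D E' k) := by
  have h'' : (ψ'.comp φ') D = D'' := by
    rw [RingHom.comp_apply, k, k']
  rw [bc_tri φ ψ (ψ'.comp φ') D D' D'' h h' h'' hx, bc_tri φ' ψ' (ψ'.comp φ') D E' D'' k k' h'' fun _ => rfl]

theorem bc_congr {L M : Type} [Field L] [Field M] (φ φ' : L →+* M) (hφ : φ = φ') (D : L) (D' : M)
    (h : φ D = D') (h' : φ' D = D') : bc p φ D D' h = bc p φ' D D' h' := by
  subst hφ
  rfl

/-- every element is defined over a finitely generated field -/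
theorem level {M : Type} [Field M] (D' : M) (b : BR p D') : ∃ T : Finset M, ∀ (E : Type) [Field E] (φ : E →+* M)
    (D₀ : E) (h : φ D₀ = D'), (∀ t ∈ T, t ∈ φ.range) → b ∈ (bc p φ D₀ D' h).range := by
  classical
  obtain ⟨q, rfl⟩ := AdjoinRoot.mk_surjective b
  induction q using Polynomial.induction_on' with
  | add q r hq hr =>
    obtain ⟨T, hT⟩ := hq
    obtain ⟨T', hT'⟩ := hr
    refine ⟨T ∪ T', fun E _ φ D₀ h ht => ?_⟩
    rw [map_add]
    exact Subring.add_mem _ (hT E φ D₀ h fun t hh => ht t (Finset.mem_union_left _ hh))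
      (hT' E φ D₀ h fun t hh => ht t (Finset.mem_union_right _ hh))
  | monomial n a =>
    induction a using Polynomial.induction_on' with
    | add q r hq hr =>
      obtain ⟨T, hT⟩ := hq
      obtain ⟨T', hT'⟩ := hr
      refine ⟨T ∪ T', fun E _ φ D₀ h ht => ?_⟩
      rw [map_add, map_add]
      exact Subring.add_mem _ (hT E φ D₀ h fun t hh => ht t (Finset.mem_union_left _ hh))
        (hT' E φ D₀ h fun t hh => ht t (Finset.mem_union_right _ hh))
    | monomial m c =>
      refine ⟨{c}, fun E _ φ D₀ h ht => ?_⟩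
      obtain ⟨c₀, hc₀⟩ := ht c (Finset.mem_singleton_self c)
      rw [← Polynomial.C_mul_X_pow_eq_monomial, ← Polynomial.C_mul_X_pow_eq_monomial, map_mul, map_pow,
        AdjoinRoot.mk_X, AdjoinRoot.mk_C, map_mul, map_pow]
      refine ⟨cc p D₀ c₀ * yy p D₀ ^ m * xx p D₀ ^ n, ?_⟩
      rw [map_mul, map_mul, map_pow, map_pow, bc_xx, bc_yy, bc_cc, hc₀]
      rfl

end Pool.Agent.Q129.CJ
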