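import Pool.Agent.Q7.CJ.Stm3
import Pool.Agent.Q129.CJ.Ret

/-!
# Project CJ, job LIM: descent from the algebraic closure (helper129)
-/

set_option autoImplicit false

namespace Pool.Agent.Q129.CJ

open Polynomial
open Pool.Agent.Q7.CJ Pool.Agent.Q224.CJ

theorem exists_galois {L M : Type} [Field L] [Field M] [Algebra L M] [IsGalois L M] (T : Finset M) :
    ∃ E : FiniteGaloisIntermediateField L M, ∀ t ∈ T, t ∈ E.toIntermediateField :=
  ⟨FiniteGaloisIntermediateField.adjoin L (T : Set M), fun t ht =>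
    FiniteGaloisIntermediateField.subset_adjoin L (T : Set M) (by exact_mod_cast ht)⟩

theorem lim : S_DED → S_BC → S_D5 → S_D6 → S_LIM := by
  intro hded _ hd5 hd6 p _ _ L _ _ D hD M _ _ _ D' hD' J hJ hτ
  subst hD'
  have : CharZero M := charZero_of_injective_algebraMap (algebraMap L M).injective
  have : IsGalois L M := ⟨⟩
  have hDM : algebraMap L M D ≠ 0 := by
    rw [Ne, map_eq_zero_iff _ (algebraMap L M).injective]
    exact hD
  have := (hded p M (algebraMap L M D) hDM).1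
  -- generators of `J`
  obtain ⟨S, hS⟩ : J.FG := (isNoetherianRing_iff_ideal_fg _).1 inferInstance J
  classical
  choose T hT using fun b => level (p := p) (algebraMap L M D) b
  obtain ⟨E₀, hE₀⟩ := exists_galois (L := L) (S.biUnion T)
  have h₀ : algebraMap E₀ M (algebraMap L E₀ D) = algebraMap L M D :=
    (IsScalarTower.algebraMap_apply L E₀ M D).symm
  set f₀ := bc p (algebraMap E₀ M) (algebraMap L E₀ D) (algebraMap L M D) h₀ with hf₀
  have hf₀i : Function.Injective f₀ := bc_inj _ _ _ _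
  set J₁ := J.comap f₀ with hJ₁
  have hJJ : J₁.map f₀ = J := by
    apply le_antisymm Ideal.map_comap_le
    have hS' : Ideal.span (S : Set (BR p (algebraMap L M D))) = J := hS
    rw [← hS', Ideal.span_le]
    intro s hs
    have hs' : s ∈ f₀.range := by
      apply hT s
      intro t ht
      exact ⟨⟨t, hE₀ t (Finset.mem_biUnion.mpr ⟨s, by exact_mod_cast hs, ht⟩)⟩, rfl⟩
    obtain ⟨s', rfl⟩ := hs'
    apply Ideal.mem_map_of_mem
    rw [Ideal.mem_comap]
    exact Ideal.subset_span hs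
  have hJ₁0 : J₁ ≠ ⊥ := by
    intro h
    rw [h, Ideal.map_bot] at hJJ
    exact hJ hJJ.symm
  have hDE : algebraMap L E₀ D ≠ 0 := by
    rw [Ne, map_eq_zero_iff _ (algebraMap L E₀).injective]
    exact hD
  have key : ∀ τ₀ : E₀ ≃ₐ[L] E₀, Sim p (algebraMap L E₀ D) (J₁.map (ga p D τ₀)) J₁ := by
    intro τ₀
    obtain ⟨a, b, ha, hb, hab⟩ := hτ (τ₀.liftNormal M) ((τ₀.liftNormal M).commutes D)
    obtain ⟨E₂, hE₂⟩ := exists_galois (L := L) (T a ∪ T b)
    set E₁ : FiniteGaloisIntermediateField L M := E₀ ⊔ E₂ with hE₁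
    have hle : E₀.toIntermediateField ≤ E₁.toIntermediateField := le_sup_left
    have hle2 : E₂.toIntermediateField ≤ E₁.toIntermediateField := le_sup_right
    let i : E₀ →ₐ[L] E₁ := IntermediateField.inclusion hle
    let _ : Algebra E₀ E₁ := i.toRingHom.toAlgebra
    have : IsScalarTower L E₀ E₁ := IsScalarTower.of_algebraMap_eq (fun x => (i.commutes x).symm)
    have : FiniteDimensional E₀ E₁ := Module.Finite.of_restrictScalars_finite L E₀ E₁
    have : IsGalois E₀ E₁ := IsGalois.tower_top_of_isGalois L E₀ E₁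
    have : CharZero E₀ := charZero_of_injective_algebraMap (algebraMap L E₀).injective
    have hne : J₁.map (ga p D τ₀) ≠ ⊥ := ne_bot_map _ (ga_inj D τ₀) hJ₁0
    apply hd6 p E₀ (algebraMap L E₀ D) hDE E₁ (J₁.map (ga p D τ₀)) J₁ hne hJ₁0
    have h₁ : algebraMap E₁ M (algebraMap E₀ E₁ (algebraMap L E₀ D)) = algebraMap L M D := rfl
    set f₁ := bc p (algebraMap E₁ M) (algebraMap E₀ E₁ (algebraMap L E₀ D)) (algebraMap L M D) h₁ with hf₁
    have hmem : ∀ c : BR p (algebraMap L M D), (∀ t ∈ T c, t ∈ E₂.toIntermediateField) → c ∈ f₁.range := by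
      intro c hc
      apply hT c
      intro t ht
      exact ⟨⟨t, hle2 (hc t ht)⟩, rfl⟩
    obtain ⟨a₁, rfl⟩ := hmem a fun t ht => hE₂ t (Finset.mem_union_left _ ht)
    obtain ⟨b₁, rfl⟩ := hmem b fun t ht => hE₂ t (Finset.mem_union_right _ ht)
    refine ⟨a₁, b₁, fun h => ha (by rw [h, map_zero]), fun h => hb (by rw [h, map_zero]),
      map_inj _ _ _ h₁ _ _ ?_⟩
    have t1 : f₁.comp (bc p (algebraMap E₀ E₁) (algebraMap L E₀ D) _ rfl) = f₀ :=
      bc_tri _ _ _ _ _ _ _ _ _ fun _ => rfl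
    have t2 : f₀.comp (ga p D τ₀) = (bc p (((τ₀.liftNormal M : M ≃ₐ[L] M) : M →ₐ[L] M) : M →+* M) (algebraMap L M D)
        (algebraMap L M D) ((τ₀.liftNormal M).commutes D)).comp f₀ :=
      bc_square _ _ _ _ _ _ _ _ _ _ _ _ fun x => (AlgEquiv.liftNormal_commutes τ₀ M x).symm
    have e1 : (((J₁.map (ga p D τ₀)).map (bc p (algebraMap E₀ E₁) (algebraMap L E₀ D) _ rfl)).map f₁) =
        J.map (bc p (((τ₀.liftNormal M : M ≃ₐ[L] M) : M →ₐ[L] M) : M →+* M) (algebraMap L M D) (algebraMap L M D)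
          ((τ₀.liftNormal M).commutes D)) := by
      conv_rhs => rw [← hJJ]
      rw [Ideal.map_map (bc p (algebraMap E₀ E₁) (algebraMap L E₀ D) _ rfl), t1, Ideal.map_map, t2, ← Ideal.map_map]
    have e2 : ((J₁.map (bc p (algebraMap E₀ E₁) (algebraMap L E₀ D) _ rfl)).map f₁) = J := by
      rw [Ideal.map_map, t1, hJJ]
    rw [Ideal.map_mul, Ideal.map_mul, Ideal.map_span, Ideal.map_span, Set.image_singleton, Set.image_singleton,
      ← hf₁, e1, e2]
    exact hab
  obtain ⟨J₀, hJ₀, hsim⟩ := hd5 p L D hD E₀ J₁ hJ₁0 key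
  refine ⟨J₀, hJ₀, ?_⟩
  have h2 := sim_map hsim f₀ hf₀i
  rw [hJJ, Ideal.map_map] at h2
  have e3 : f₀.comp (bc p (algebraMap L E₀) D (algebraMap L E₀ D) rfl) =
      bc p (algebraMap L M) D (algebraMap L M D) rfl := by
    exact bc_tri _ _ _ _ _ _ _ _ _ fun x => (IsScalarTower.algebraMap_apply L E₀ M x).symm
  rw [e3] at h2
  exact h2

end Pool.Agent.Q129.CJ
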